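import Mathlib
import Pool.Agent.H.MP_d2d64b_pr.C

open MeasureTheory ProbabilityTheory Filter Topology
open scoped ENNReal

namespace Pool.Agent.Results.MP_d2d64b_pr.ZeroSpeed

/-- The vertex set; the root is `1`. -/
abbrev V : Type := FreeGroup Bool × Multiplicative ℤ

instance : MeasurableSpace V := ⊤

/-- The walk started at `x` whose step at time `t` from `v` is `ω t v`. -/
def walk (x : V) (ω : ℕ → V → V) : ℕ → V
  | 0 => x
  | t + 1 => ω t (walk x ω t)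

theorem result : ∃ (Ω : Type) (_ : MeasurableSpace Ω) (μ : Measure Ω) (G : Ω → SimpleGraph V),
    IsProbabilityMeasure μ ∧ Measurable G ∧
    (∀ᵐ u ∂μ, (G u).Connected ∧ ∀ v, ((G u).neighborSet v).Finite) ∧
    (∀ F : SimpleGraph V → V → V → ℝ≥0∞, (∀ x y, Measurable fun H => F H x y) →
      (∀ (H H' : SimpleGraph V) (σ : H ≃g H') x y, F H' (σ x) (σ y) = F H x y) →
      ∫⁻ u, ∑' v, F (G u) 1 v ∂μ = ∫⁻ u, ∑' v, F (G u) v 1 ∂μ) ∧
    (∀ A : Set (SimpleGraph V), MeasurableSet A → (∀ H H', Nonempty (H ≃g H') → H ∈ A → H' ∈ A) →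
      μ (G ⁻¹' A) = 0 ∨ μ (G ⁻¹' A) = 1) ∧
    ∫⁻ u, ((G u).neighborSet 1).encard ∂μ < ∞ ∧
    (∀ u (S : Finset V),
      (S.card : ℕ∞) ≤ {p : V × V | p.1 ∈ S ∧ p.2 ∉ S ∧ (G u).Adj p.1 p.2}.encard) ∧
    ∀ᵐ u ∂μ, ∀ᵐ ω ∂(Measure.infinitePi fun _ : ℕ =>
        Measure.infinitePi fun v => uniformOn ((G u).neighborSet v)),
      Tendsto (fun n => ((G u).dist 1 (walk 1 ω n) : ℝ) / n) atTop (𝓝 0) := by
  have e : ∀ ω n, walk 1 ω n = Pool.Agent.Lib.helper3.SRW.walk 1 ω n := fun ω n => by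
    induction n with
    | zero => rfl
    | succ n ih => exact congrArg (ω n) ih
  simp only [e]
  exact Pool.Agent.H.MP_d2d64b_pr.main

end Pool.Agent.Results.MP_d2d64b_pr.ZeroSpeed
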